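import Pool.Agent.Mg.F5f0aae.Gdb289f

open Finset PowerSeries Pool.Agent.MP_5f0aae_co

/-- The counting polynomial of homeomorphically irreducible graphs on `p` points is the
coefficient of `y ^ p` in a cycle index of the pair group with explicit figure series. -/
theorem Pool.Agent.Results.MP_5f0aae_co.ClosedForm.result
    {K : Type*} [Field K] [CharZero K] (x : K) (N p : ℕ) (hp : p ≤ N) :
    ∑ q ∈ range (p.choose 2 + 1), (hcount p q : K) * x ^ q =
      coeff p (cycFig x N * ∑ t ∈ range (N + 1), X ^ t * ∑ lam : Nat.Partition t,
        C ((zee t fun k => lam.parts.count k : ℕ) : K)⁻¹ *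
          pairTerm t (fun k => lam.parts.count k)
            (pairFig 1 x N) (pairFig (-1) x N) (loopFig x N)) :=
  closed_form x N p hp
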